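import Mathlib
import Pool.Agent.TH968.UST.Defs
import Pool.Agent.J4H89.WU.All
import Pool.Agent.J4H89.WU.Exh

/-!
# The wired uniform spanning tree of a recurrent unimodular random graph is a graph factor of iid

Graphs are connected components of simple graphs on `ℕ`; this covers all connected, locally finite
graphs with countably many vertices, finite ones included. A random rooted graph is given by a
random graph `G ω` on `ℕ` and a random vertex `ρ ω`: it is the component of `ρ ω` in `G ω`, rooted
at `ρ ω`.

Proof. (1) In a recurrent graph the Cesàro means of the laws of simple random walk started from two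
neighbours merge. With iid labels this gives, by a deterministic choice of time scales, an
increasing sequence of random partitions into finite cells which finally join the endpoints of
every edge; mass transport carries the estimates from the root to all vertices. (2) The part inside
a cell of the wired uniform spanning tree of the cell stochastically dominates the union of
independent such configurations in the subcells (Feder and Mihail). (3) A monotone coupling, chosen
equivariantly by ranking the vertices of a cell with further labels, makes the configurations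
increasing; the law of their union is the limit along the cells.

The proof was written by helper2, helper17, helper42, helper63 and helper89.
-/

set_option autoImplicit false

namespace Pool.Agent.Results.MP_688e31_pr.FactorOfIid

open MeasureTheory Filter Topology
open Pool.Agent.TH968.UST
open scoped ENNReal unitInterval

/-- The vertex set of the connected component of `x` in `G`. -/
def comp (G : SimpleGraph ℕ) (x : ℕ) : Set ℕ := {y | G.Reachable x y}

/-- The component of `x` is locally finite. -/
def LocallyFiniteAt (G : SimpleGraph ℕ) (x : ℕ) : Prop :=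
  ∀ y ∈ comp G x, (G.neighborSet y).Finite

/-- `φ` restricts to a graph isomorphism from the component of `x` in `G` onto the component of
`φ x` in `G'`. -/
def IsIsoAt (G G' : SimpleGraph ℕ) (x : ℕ) (φ : ℕ → ℕ) : Prop :=
  Set.BijOn φ (comp G x) (comp G' (φ x)) ∧
    ∀ y ∈ comp G x, ∀ z ∈ comp G x, (G'.Adj (φ y) (φ z) ↔ G.Adj y z)

/-- Simple random walk on the component of `x`, started at `x`, returns to `x` almost surely
(no condition if the component is the single vertex `x`). -/
def RecurrentAt (G : SimpleGraph ℕ) (x : ℕ) : Prop :=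
  (∃ w, G.Adj x w) → ⨆ n, avg G (hit G x n) x = 1

/-- The mass transport principle for the component of `ρ` in `G` with root `ρ`, for all
nonnegative measurable isomorphism-invariant functions `f` of doubly rooted graphs. -/
def Unimodular {Ω : Type*} [MeasurableSpace Ω] (P : Measure Ω) (G : Ω → SimpleGraph ℕ)
    (ρ : Ω → ℕ) : Prop :=
  ∀ f : SimpleGraph ℕ → ℕ → ℕ → ℝ≥0∞, (∀ x y, Measurable fun G => f G x y) →
    (∀ G G' x φ, IsIsoAt G G' x φ → ∀ y ∈ comp G x, ∀ z ∈ comp G x,
      f G' (φ y) (φ z) = f G y z) →
    ∫⁻ ω, ∑' x : comp (G ω) (ρ ω), f (G ω) (ρ ω) x ∂P =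
      ∫⁻ ω, ∑' x : comp (G ω) (ρ ω), f (G ω) x (ρ ω) ∂P

/-- The law of iid labels, uniform on the unit interval. -/
noncomputable def iid : Measure (ℕ → I) := Measure.infinitePi fun _ => (volume : Measure I)

/-- Measurable maps from vertex-labelled graphs to edge subsets which are equivariant under graph
isomorphisms (in particular, the edges in a component depend only on the labelled component, and
no root is used). -/
structure IsFactorMap (Φ : SimpleGraph ℕ → (ℕ → I) → Set (Sym2 ℕ)) : Prop where
  measurable : Measurable fun p : SimpleGraph ℕ × (ℕ → I) => Φ p.1 p.2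
  subset : ∀ G U, Φ G U ⊆ G.edgeSet
  equivariant : ∀ (G G' : SimpleGraph ℕ) (x : ℕ) (φ : ℕ → ℕ), IsIsoAt G G' x φ →
    ∀ U U' : ℕ → I, (∀ y ∈ comp G x, U' (φ y) = U y) →
      ∀ y ∈ comp G x, ∀ z ∈ comp G x, (s(φ y, φ z) ∈ Φ G' U' ↔ s(y, z) ∈ Φ G U)

/-- Exhaustions of the component of `x` by finite connected sets. -/
structure Exhausts (G : SimpleGraph ℕ) (x : ℕ) (V : ℕ → Finset ℕ) : Prop where
  mono : Monotone V
  connected : ∀ n, (G.induce (V n : Set ℕ)).Connected
  union : (⋃ n, (V n : Set ℕ)) = comp G x

/-- `Q` is the law of a random edge set whose restriction to the component of `x` is the wired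
uniform spanning forest of that component: there is an exhaustion, and along every exhaustion `V`
and for all finite sets `F` of edges of the component and all `A`, the probability that the uniform
spanning tree of the graph with all vertices outside `V n` identified meets `F` exactly in `A`
converges to the `Q`-probability of the same event. -/
def IsWUSF (G : SimpleGraph ℕ) (x : ℕ) (Q : Measure (Set (Sym2 ℕ))) : Prop :=
  (∃ V : ℕ → Finset ℕ, Exhausts G x V) ∧
  ∀ V : ℕ → Finset ℕ, Exhausts G x V → ∀ F A : Finset (Sym2 ℕ),
    (∀ e ∈ F, e ∈ G.edgeSet ∧ ∀ v ∈ e, v ∈ comp G x) →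
    Tendsto (fun n => ustProb (wired (V n)) (touch G (V n)) (F : Set (Sym2 ℕ))
      (A : Set (Sym2 ℕ))) atTop (𝓝 (Q {T | T ∩ (F : Set (Sym2 ℕ)) = (A : Set (Sym2 ℕ))}).toReal)

/-- **Full answer to Q1 (yes).** For every unimodular random rooted graph which is recurrent almost
surely, the wired uniform spanning tree is a graph factor of iid. -/
theorem result {Ω : Type*} [MeasurableSpace Ω] (P : Measure Ω) [IsProbabilityMeasure P]
    (G : Ω → SimpleGraph ℕ) (ρ : Ω → ℕ) (hG : Measurable G) (hρ : Measurable ρ)
    (hlf : ∀ᵐ ω ∂P, LocallyFiniteAt (G ω) (ρ ω)) (hU : Unimodular P G ρ)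
    (hrec : ∀ᵐ ω ∂P, RecurrentAt (G ω) (ρ ω)) :
    ∃ Φ : SimpleGraph ℕ → (ℕ → I) → Set (Sym2 ℕ), IsFactorMap Φ ∧
      ∀ᵐ ω ∂P, IsWUSF (G ω) (ρ ω) (iid.map (Φ (G ω))) := by
  obtain ⟨Φ, h1, h2⟩ := J4H89.WU.final Ω P G ρ hG hρ hlf hU hrec
  refine ⟨Φ, ⟨h1.measurable, h1.subset, h1.equivariant⟩, ?_⟩
  filter_upwards [hlf, h2] with ω h3 h4
  refine ⟨?_, fun V hV => h4 V ⟨hV.mono, hV.connected, hV.union⟩⟩
  obtain ⟨V, hV⟩ := J4H89.WU.t_EXH (G ω) (ρ ω) h3
  exact ⟨V, hV.mono, hV.connected, hV.union⟩

end Pool.Agent.Results.MP_688e31_pr.FactorOfIid
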